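import Pool.Agent.Results.MP_c17804_co.CriticalJoins

set_option autoImplicit false

namespace Pool.Agent.Results.MP_e338b6_co.HajosChain

open SimpleGraph Pool.Agent.Results.MP_c17804_co.CriticalJoins

/-! ### gluing and joins of finite graphs -/

section Join

variable {V1 V2 : Type} [DecidableEq V2] (x1 : V1) (x2 : V2)

/-- second injection -/
def g2 (v : V2) : V1 ⊕ {v : V2 // v ≠ x2} :=
  if h : v = x2 then Sum.inl x1 else Sum.inr ⟨v, h⟩

lemma glue : Glue x1 x2 (Sum.inl : V1 → V1 ⊕ {v : V2 // v ≠ x2}) (g2 x1 x2) := by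
  refine ⟨Sum.inl_injective, ?_, ?_, ?_, ?_⟩
  · intro u v h
    unfold g2 at h
    by_cases h1 : u = x2
    · by_cases h2 : v = x2
      · rw [h1, h2]
      · rw [dif_pos h1, dif_neg h2] at h
        cases h
    · by_cases h2 : v = x2
      · rw [dif_neg h1, dif_pos h2] at h
        cases h
      · rw [dif_neg h1, dif_neg h2] at h
        exact congrArg Subtype.val (Sum.inr_injective h)
  · simp [g2]
  · intro p v h
    unfold g2 at h
    by_cases h1 : v = x2
    · rw [dif_pos h1] at h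
      exact ⟨Sum.inl_injective h, h1⟩
    · rw [dif_neg h1] at h
      cases h
  · intro z
    rcases z with p | ⟨v, hv⟩
    · exact Or.inl ⟨p, rfl⟩
    · exact Or.inr ⟨v, by simp [g2, hv]⟩

end Join

section Props

variable {V1 V2 M : Type} {T1 : SimpleGraph V1} {T2 : SimpleGraph V2} {x1 y1 : V1} {x2 y2 : V2}
  {f1 : V1 → M} {f2 : V2 → M}

lemma adj1 (g : Glue x1 x2 f1 f2) (h1 : T1.Adj x1 y1) (h2 : T2.Adj x2 y2) {p q : V1}
    (h : (joinG T1 T2 x1 y1 x2 y2 f1 f2 g h1).Adj (f1 p) (f1 q)) :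
    T1.Adj p q ∧ s(p, q) ≠ s(x1, y1) := by
  rcases h with ⟨a, b, hab, hs, ha, hb⟩ | ⟨a, b, hab, hs, ha, hb⟩ | ⟨ha, hb⟩ | ⟨ha, hb⟩
  · rw [← g.inj1 ha, ← g.inj1 hb]
    exact ⟨hab, hs⟩
  · exfalso
    have e1 := (g.sep _ _ ha.symm).2
    have e2 := (g.sep _ _ hb.symm).2
    rw [e1, e2] at hab
    exact T2.loopless.irrefl _ hab
  · exact absurd (g.sep _ _ hb).2.symm h2.ne
  · exact absurd (g.sep _ _ ha).2.symm h2.ne

lemma adj2 (g : Glue x1 x2 f1 f2) (h1 : T1.Adj x1 y1) {p q : V2}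
    (h : (joinG T1 T2 x1 y1 x2 y2 f1 f2 g h1).Adj (f2 p) (f2 q)) :
    T2.Adj p q ∧ s(p, q) ≠ s(x2, y2) := by
  rcases h with ⟨a, b, hab, hs, ha, hb⟩ | ⟨a, b, hab, hs, ha, hb⟩ | ⟨ha, hb⟩ | ⟨ha, hb⟩
  · exfalso
    have e1 := (g.sep _ _ ha).1
    have e2 := (g.sep _ _ hb).1
    rw [e1, e2] at hab
    exact T1.loopless.irrefl _ hab
  · rw [← g.inj2 ha, ← g.inj2 hb]
    exact ⟨hab, hs⟩
  · exact absurd (g.sep _ _ ha.symm).1.symm h1.ne
  · exact absurd (g.sep _ _ hb.symm).1.symm h1.ne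

lemma adj12 (g : Glue x1 x2 f1 f2) (h1 : T1.Adj x1 y1) {p : V1} {q : V2} (hp : p ≠ x1)
    (hq : q ≠ x2) (h : (joinG T1 T2 x1 y1 x2 y2 f1 f2 g h1).Adj (f1 p) (f2 q)) :
    p = y1 ∧ q = y2 := by
  rcases h with ⟨a, b, hab, hs, ha, hb⟩ | ⟨a, b, hab, hs, ha, hb⟩ | ⟨ha, hb⟩ | ⟨ha, hb⟩
  · exact absurd (g.sep _ _ hb).2 hq
  · exact absurd (g.sep _ _ ha.symm).1 hp
  · exact ⟨g.inj1 ha, g.inj2 hb⟩
  · exact absurd (g.sep _ _ ha).1 hp

/-- a clique with at least three vertices lies on one side -/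
lemma clique_side (g : Glue x1 x2 f1 f2) (h1 : T1.Adj x1 y1) (h2 : T2.Adj x2 y2) (s : Finset M)
    (hs : (joinG T1 T2 x1 y1 x2 y2 f1 f2 g h1).IsClique s) (hc : 3 ≤ s.card) :
    (∀ z ∈ s, ∃ p, f1 p = z) ∨ (∀ z ∈ s, ∃ q, f2 q = z) := by
  classical
  by_contra hcon
  push Not at hcon
  obtain ⟨⟨z, hz, hz'⟩, ⟨w, hw, hw'⟩⟩ := hcon
  obtain ⟨q, rfl⟩ : ∃ q, f2 q = z := by
    rcases g.cover z with h | h
    · obtain ⟨p, hp⟩ := h
      exact absurd hp (hz' p)
    · exact h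
  obtain ⟨p, rfl⟩ : ∃ p, f1 p = w := by
    rcases g.cover w with h | h
    · exact h
    · obtain ⟨p, hp⟩ := h
      exact absurd hp (hw' p)
  have hp : p ≠ x1 := by
    rintro rfl
    exact hw' x2 g.glue.symm
  have hq : q ≠ x2 := by
    rintro rfl
    exact hz' x1 g.glue
  have hpq : f1 p ≠ f2 q := fun h => hp (g.sep _ _ h).1
  obtain ⟨rfl, rfl⟩ := adj12 g h1 hp hq (hs hw hz hpq)
  -- a third vertex
  obtain ⟨t, ht, ht1, ht2⟩ : ∃ t ∈ s, t ≠ f1 p ∧ t ≠ f2 q := by
    by_contra hcon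
    push Not at hcon
    have hsub : s ⊆ {f1 p, f2 q} := by
      intro t ht
      rw [Finset.mem_insert, Finset.mem_singleton]
      by_cases h : t = f1 p
      · exact Or.inl h
      · exact Or.inr (hcon t ht h)
    have := Finset.card_le_card hsub
    have := Finset.card_le_two (a := f1 p) (b := f2 q)
    omega
  rcases g.cover t with ⟨r, rfl⟩ | ⟨r, rfl⟩
  · by_cases hr : r = x1
    · subst hr
      exact (adj1 g h1 h2 (hs ht hw ht1)).2 rfl
    · have := adj12 g h1 hr hq (hs ht hz ht2)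
      exact ht1 (by rw [this.1])
  · by_cases hr : r = x2
    · subst hr
      exact (adj2 g h1 (hs ht hz ht2)).2 rfl
    · have := adj12 g h1 hp hr (hs hw ht ht1.symm)
      exact ht2 (by rw [this.2])

/-- cliques of the join not containing a given pair come from cliques of the pieces -/
lemma clique_join (g : Glue x1 x2 f1 f2) (h1 : T1.Adj x1 y1) (h2 : T2.Adj x2 y2) (k : ℕ)
    (hk : 3 ≤ k) (hT1 : ∀ s : Finset V1, T1.IsClique s → s.card = k → x1 ∈ s ∧ y1 ∈ s)
    (s : Finset M) (hs : (joinG T1 T2 x1 y1 x2 y2 f1 f2 g h1).IsClique s) (hc : s.card = k) :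
    ∃ t : Finset V2, T2.IsClique t ∧ t.card = k ∧ ¬ (x2 ∈ t ∧ y2 ∈ t) ∧ ∀ q ∈ t, f2 q ∈ s := by
  classical
  rcases clique_side g h1 h2 s hs (by omega) with h | h
  · exfalso
    let t : Finset V1 := s.preimage f1 (g.inj1.injOn)
    have hmem : ∀ p, p ∈ t ↔ f1 p ∈ s := fun p => Finset.mem_preimage
    have hts : t.image f1 = s := by
      ext z
      rw [Finset.mem_image]
      constructor
      · rintro ⟨p, hp, rfl⟩
        exact (hmem p).1 hp
      · intro hz
        obtain ⟨p, rfl⟩ := h z hz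
        exact ⟨p, (hmem p).2 hz, rfl⟩
    have hcard : t.card = k := by
      rw [← hc, ← hts, Finset.card_image_of_injective _ g.inj1]
    have hcl : T1.IsClique t := by
      intro a ha b hb hab
      exact (adj1 g h1 h2 (hs ((hmem a).1 ha) ((hmem b).1 hb) (fun h => hab (g.inj1 h)))).1
    obtain ⟨ha, hb⟩ := hT1 t hcl hcard
    exact (adj1 g h1 h2 (hs ((hmem _).1 ha) ((hmem _).1 hb)
      (fun h => h1.ne (g.inj1 h)))).2 rfl
  · let t : Finset V2 := s.preimage f2 (g.inj2.injOn)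
    have hmem : ∀ p, p ∈ t ↔ f2 p ∈ s := fun p => Finset.mem_preimage
    have hts : t.image f2 = s := by
      ext z
      rw [Finset.mem_image]
      constructor
      · rintro ⟨p, hp, rfl⟩
        exact (hmem p).1 hp
      · intro hz
        obtain ⟨p, rfl⟩ := h z hz
        exact ⟨p, (hmem p).2 hz, rfl⟩
    have hcard : t.card = k := by
      rw [← hc, ← hts, Finset.card_image_of_injective _ g.inj2]
    refine ⟨t, ?_, hcard, ?_, fun q hq => (hmem q).1 hq⟩
    · intro a ha b hb hab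
      exact (adj2 g h1 (hs ((hmem a).1 ha) ((hmem b).1 hb) (fun h => hab (g.inj2 h)))).1
    · rintro ⟨ha, hb⟩
      exact (adj2 g h1 (hs ((hmem _).1 ha) ((hmem _).1 hb)
        (fun h => h2.ne (g.inj2 h)))).2 rfl

lemma edges_join [Finite V1] [Finite V2] (g : Glue x1 x2 f1 f2) (h1 : T1.Adj x1 y1)
    (h2 : T2.Adj x2 y2) (e1 e2 : ℕ) (he1 : T1.edgeSet.ncard ≤ e1) (he2 : T2.edgeSet.ncard ≤ e2) :
    (joinG T1 T2 x1 y1 x2 y2 f1 f2 g h1).edgeSet.ncard + 1 ≤ e1 + e2 := by
  classical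
  have hsub : (joinG T1 T2 x1 y1 x2 y2 f1 f2 g h1).edgeSet ⊆
      ((Sym2.map f1 '' (T1.edgeSet \ {s(x1, y1)})) ∪ (Sym2.map f2 '' (T2.edgeSet \ {s(x2, y2)}))) ∪
        {s(f1 y1, f2 y2)} := by
    intro e he
    induction e with
    | h z w =>
      rw [SimpleGraph.mem_edgeSet] at he
      rcases he with ⟨a, b, hab, hs, rfl, rfl⟩ | ⟨a, b, hab, hs, rfl, rfl⟩ | ⟨rfl, rfl⟩ | ⟨rfl, rfl⟩
      · exact Or.inl (Or.inl ⟨s(a, b), ⟨hab, hs⟩, rfl⟩)
      · exact Or.inl (Or.inr ⟨s(a, b), ⟨hab, hs⟩, rfl⟩)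
      · exact Or.inr rfl
      · exact Or.inr Sym2.eq_swap
  have c1 : (T1.edgeSet \ {s(x1, y1)}).ncard = T1.edgeSet.ncard - 1 :=
    Set.ncard_sdiff_singleton_of_mem (show s(x1, y1) ∈ T1.edgeSet from h1)
  have c2 : (T2.edgeSet \ {s(x2, y2)}).ncard = T2.edgeSet.ncard - 1 :=
    Set.ncard_sdiff_singleton_of_mem (show s(x2, y2) ∈ T2.edgeSet from h2)
  have p1 : 0 < T1.edgeSet.ncard :=
    (Set.ncard_pos (Set.toFinite _)).2 ⟨s(x1, y1), h1⟩
  have p2 : 0 < T2.edgeSet.ncard :=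
    (Set.ncard_pos (Set.toFinite _)).2 ⟨s(x2, y2), h2⟩
  have hfin : ((((Sym2.map f1 '' (T1.edgeSet \ {s(x1, y1)})) ∪
      (Sym2.map f2 '' (T2.edgeSet \ {s(x2, y2)})))) ∪ {s(f1 y1, f2 y2)}).Finite :=
    ((((Set.toFinite _).image _).union ((Set.toFinite _).image _))).union (Set.finite_singleton _)
  have i1 := Set.ncard_le_ncard hsub hfin
  have i2 := Set.ncard_union_le ((Sym2.map f1 '' (T1.edgeSet \ {s(x1, y1)})) ∪
      (Sym2.map f2 '' (T2.edgeSet \ {s(x2, y2)}))) {s(f1 y1, f2 y2)}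
  have i3 := Set.ncard_union_le (Sym2.map f1 '' (T1.edgeSet \ {s(x1, y1)}))
      (Sym2.map f2 '' (T2.edgeSet \ {s(x2, y2)}))
  have i4 := Set.ncard_image_le (f := Sym2.map f1) (Set.toFinite (T1.edgeSet \ {s(x1, y1)}))
  have i5 := Set.ncard_image_le (f := Sym2.map f2) (Set.toFinite (T2.edgeSet \ {s(x2, y2)}))
  rw [Set.ncard_singleton] at i2
  omega

end Props

/-! ### the end piece `K_7 ∨ C_5` -/

/-- adjacency: `0..6` form a clique, `7..11` a 5-cycle, everything in between is joined -/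
def adjB (a b : ℕ) : Bool :=
  a != b && (decide (a < 7) || decide (b < 7) || (a + 1) % 12 == b || (b + 1) % 12 == a ||
    (a == 7 && b == 11) || (a == 11 && b == 7))

/-- the graph -/
def B : SimpleGraph (Fin 12) where
  Adj a b := adjB a b = true
  symm := ⟨by decide +kernel⟩
  loopless := ⟨by decide +kernel⟩

instance : DecidableRel B.Adj := fun a b => by unfold B; infer_instance

/-- colourings of `B` without the edge `a b`, `a < b` -/
def colB (a b v : ℕ) : ℕ :=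
  if b ≤ 6 then
    (if v ≤ 6 then (if v = b then a else v) else (if v = 11 then b else 7 + (v + 1) % 2))
  else if a ≤ 6 then
    (if v ≤ 6 then v else if v = b then a else 7 + ((v + 4 - b) % 5) % 2)
  else (if v ≤ 6 then v else 7 + ((v + 5 - (if b = a + 1 then b else 7)) % 5) % 2)

lemma colB_check : ∀ a b : Fin 12, a < b → adjB a b = true → ∀ u v : Fin 12, adjB u v = true →
    ¬ ((u = a ∧ v = b) ∨ (u = b ∧ v = a)) → colB a b u ≠ colB a b v := by
  decide +kernel

lemma colB_lt : ∀ a b : Fin 12, a < b → adjB a b = true → ∀ v : Fin 12, colB a b v < 9 := by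
  decide +kernel

lemma B_not (c : Fin 12 → Fin 9) : ∃ u v, B.Adj u v ∧ c u = c v := by
  classical
  by_contra hcon
  push Not at hcon
  have hinj : Function.Injective (fun i : Fin 7 => c (Fin.castLE (by norm_num) i)) := by
    intro i j hij
    by_contra hne
    refine hcon _ _ ?_ hij
    have h : ∀ i j : Fin 7, i ≠ j → adjB i j = true := by decide +kernel
    exact h i j hne
  have hS : (Finset.univ.image (fun i : Fin 7 => c (Fin.castLE (by norm_num) i)))ᶜ.card = 2 := by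
    rw [Finset.card_compl, Finset.card_image_of_injective _ hinj]
    simp
  obtain ⟨a, b, hab, hS⟩ := Finset.card_eq_two.1 hS
  have hmem : ∀ v : Fin 12, 7 ≤ (v : ℕ) → c v = a ∨ c v = b := by
    intro v hv
    have : c v ∈ (Finset.univ.image (fun i : Fin 7 => c (Fin.castLE (by norm_num) i)))ᶜ := by
      rw [Finset.mem_compl, Finset.mem_image]
      rintro ⟨i, -, hi⟩
      refine hcon _ v ?_ hi
      have h : ∀ (i : Fin 7) (v : Fin 12), 7 ≤ (v : ℕ) → adjB i v = true := by decide +kernel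
      exact h i v hv
    rw [hS] at this
    simpa using this
  have h7 := hmem 7 (by decide)
  have h8 := hmem 8 (by decide)
  have h9 := hmem 9 (by decide)
  have h10 := hmem 10 (by decide)
  have h11 := hmem 11 (by decide)
  have n1 := hcon 7 8 (by decide)
  have n2 := hcon 8 9 (by decide)
  have n3 := hcon 9 10 (by decide)
  have n4 := hcon 10 11 (by decide)
  have n5 := hcon 7 11 (by decide)
  rcases h7 with h7 | h7 <;> rcases h8 with h8 | h8 <;> rcases h9 with h9 | h9 <;>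
    rcases h10 with h10 | h10 <;> rcases h11 with h11 | h11 <;> simp_all

lemma B_cr : Cr 9 B := by
  refine ⟨B_not, ?_, ?_⟩
  · have key : ∀ a b : Fin 12, a < b → adjB a b = true → ∃ c : Fin 12 → Fin 9,
        ∀ u v, B.Adj u v → s(u, v) ≠ s(a, b) → c u ≠ c v := by
      intro a b hab h
      refine ⟨fun v => ⟨colB a b v, colB_lt a b hab h v⟩, fun u v huv hs he => ?_⟩
      refine colB_check a b hab h u v huv ?_ (congrArg Fin.val he)
      intro h3
      apply hs
      rw [Sym2.eq_iff]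
      exact h3
    intro a b h
    rcases lt_trichotomy a b with hab | hab | hab
    · exact key a b hab h
    · rw [hab] at h
      exact absurd h (B.loopless.irrefl _)
    · obtain ⟨c, hc⟩ := key b a hab h.symm
      exact ⟨c, fun u v huv hs => hc u v huv (by rwa [Sym2.eq_swap (a := b)])⟩
  · have h : ∀ v : Fin 12, ∃ u : Fin 12, adjB v u = true := by decide +kernel
    exact h

lemma B_edges : B.edgeSet.ncard ≤ 61 := by
  have h1 : B.edgeFinset.card = 61 := by decide +kernel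
  rw [← h1, ← SimpleGraph.coe_edgeFinset, Set.ncard_coe_finset]

lemma B_clique (s : Finset (Fin 12)) (hs : B.IsClique s) (hc : s.card = 9) :
    (0 : Fin 12) ∈ s ∧ (1 : Fin 12) ∈ s := by
  classical
  have h1 : (s.filter (fun v : Fin 12 => 7 ≤ (v : ℕ))).card ≤ 2 := by
    by_contra hcon
    rw [not_le, Finset.two_lt_card] at hcon
    obtain ⟨x, hx, y, hy, z, hz, hxy, hxz, hyz⟩ := hcon
    rw [Finset.mem_filter] at hx hy hz
    have h : ∀ x y z : Fin 12, 7 ≤ (x : ℕ) → 7 ≤ (y : ℕ) → 7 ≤ (z : ℕ) → adjB x y = true →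
        adjB y z = true → adjB x z = true → False := by decide +kernel
    exact h x y z hx.2 hy.2 hz.2 (hs hx.1 hy.1 hxy) (hs hy.1 hz.1 hyz) (hs hx.1 hz.1 hxz)
  have h2 := Finset.card_filter_add_card_filter_not (s := s) (fun v : Fin 12 => 7 ≤ (v : ℕ))
  have h3 : s.filter (fun v : Fin 12 => ¬ 7 ≤ (v : ℕ)) ⊆
      Finset.univ.filter (fun v : Fin 12 => ¬ 7 ≤ (v : ℕ)) :=
    Finset.filter_subset_filter _ (Finset.subset_univ _)
  have h4 : (Finset.univ.filter (fun v : Fin 12 => ¬ 7 ≤ (v : ℕ))).card = 7 := by decide +kernel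
  have h5 := Finset.eq_of_subset_of_card_le h3 (by omega)
  have h6 : ∀ v : Fin 12, ¬ 7 ≤ (v : ℕ) → v ∈ s := by
    intro v hv
    have : v ∈ s.filter (fun v : Fin 12 => ¬ 7 ≤ (v : ℕ)) := by
      rw [h5]; simp only [Finset.mem_filter, Finset.mem_univ, true_and]; exact hv
    exact (Finset.mem_filter.1 this).1
  exact ⟨h6 0 (by decide), h6 1 (by decide)⟩

/-! ### the chain -/

/-- state of the chain: `n` vertices, at most `e` edges, 10-critical, every `K_9` contains the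
edge `x y` -/
def State (n e : ℕ) : Prop :=
  ∃ (V : Type) (_ : Fintype V) (G : SimpleGraph V) (x y : V), Fintype.card V = n ∧ Cr 9 G ∧
    G.edgeSet.ncard ≤ e ∧ G.Adj x y ∧
    ∀ s : Finset V, G.IsClique s → s.card = 9 → x ∈ s ∧ y ∈ s

lemma state_zero : State 12 61 :=
  ⟨Fin 12, inferInstance, B, 0, 1, by simp, B_cr, B_edges, by decide, B_clique⟩

lemma state_succ (n e : ℕ) (h : State n e) : State (n + 9) (e + 44) := by
  classical
  obtain ⟨V, _, G, x, y, hn, hcr, he, hxy, hcl⟩ := h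
  have hK : (⊤ : SimpleGraph (Fin 10)).Adj 0 1 := by
    rw [SimpleGraph.top_adj]; decide
  have g := glue x (0 : Fin 10)
  have hKe : (⊤ : SimpleGraph (Fin 10)).edgeSet.ncard ≤ 45 := by
    have h1 : (⊤ : SimpleGraph (Fin 10)).edgeFinset.card = 45 := by decide +kernel
    rw [← h1, ← SimpleGraph.coe_edgeFinset, Set.ncard_coe_finset]
  refine ⟨V ⊕ {v : Fin 10 // v ≠ 0}, inferInstance,
    joinG G ⊤ x y 0 1 Sum.inl (g2 x (0 : Fin 10)) g hxy, g2 x (0 : Fin 10) 2,
    g2 x (0 : Fin 10) 3, ?_, join_cr (by norm_num) g hcr (top_cr (by norm_num)) hxy hK, ?_, ?_, ?_⟩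
  · rw [Fintype.card_sum, hn]
    congr 1
  · have := edges_join g hxy hK e 45 he hKe
    omega
  · refine Or.inr (Or.inl ⟨2, 3, ?_, ?_, rfl, rfl⟩)
    · rw [SimpleGraph.top_adj]; decide
    · decide
  · intro s hs hc
    obtain ⟨t, -, htc, ht, hts⟩ := clique_join g hxy hK 9 (by norm_num) hcl s hs hc
    have key : ∀ t : Finset (Fin 10), t.card = 9 → ¬ (0 ∈ t ∧ 1 ∈ t) → 2 ∈ t ∧ 3 ∈ t := by
      decide +kernel
    obtain ⟨k1, k2⟩ := key t htc ht
    exact ⟨hts 2 k1, hts 3 k2⟩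

lemma state_all (t : ℕ) : State (12 + 9 * t) (61 + 44 * t) := by
  induction t with
  | zero => exact state_zero
  | succ t ih =>
    have := state_succ _ _ ih
    have e1 : 12 + 9 * (t + 1) = 12 + 9 * t + 9 := by ring
    have e2 : 61 + 44 * (t + 1) = 61 + 44 * t + 44 := by ring
    rw [e1, e2]
    exact this

/-- For every `C` there is a finite 10-critical `K_9`-free graph with `n` vertices and at most
`5 n - C` edges. -/
theorem result (C : ℕ) :
    ∃ (V : Type) (_ : Fintype V) (G : SimpleGraph V),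
      IsCritical 10 G ∧ G.CliqueFree 9 ∧ G.edgeSet.ncard + C ≤ 5 * Fintype.card V := by
  classical
  obtain ⟨V, _, G, x, y, hn, hcr, he, hxy, hcl⟩ := state_all (C + 6)
  have hB : B.Adj 0 1 := by decide
  have g := glue x (0 : Fin 12)
  refine ⟨V ⊕ {v : Fin 12 // v ≠ 0}, inferInstance,
    joinG G B x y 0 1 Sum.inl (g2 x (0 : Fin 12)) g hxy,
    critical_of_cr (by norm_num) (join_cr (by norm_num) g hcr B_cr hxy hB), ?_, ?_⟩
  · intro s hs
    obtain ⟨t, ht1, htc, ht, -⟩ :=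
      clique_join g hxy hB 9 (by norm_num) hcl s hs.isClique hs.card_eq
    exact ht (B_clique t ht1 htc)
  · have h1 := edges_join g hxy hB _ 61 he B_edges
    have h2 : Fintype.card (V ⊕ {v : Fin 12 // v ≠ 0}) = 12 + 9 * (C + 6) + 11 := by
      rw [Fintype.card_sum, hn]
      congr 1
    rw [h2]
    omega

end Pool.Agent.Results.MP_e338b6_co.HajosChain
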